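import Mathlib
import Pool.Agent.N758.TBG.Angles

/-!
# Almost every union of at least two rotated triangular lattices is a dense forest

The plane is `ℂ`, angles are elements of `ℝ / 2πℤ`.
-/

set_option autoImplicit false

namespace Pool.Agent.Results.MP_e7d22a_nt.AlmostEveryPair

open Complex MeasureTheory

noncomputable instance fact2pi : Fact (0 < 2 * Real.pi) := ⟨Real.two_pi_pos⟩

/-- The lattice `Λ` spanned by `(1, 0)` and `(1/2, √3/2)`. -/
def Lam : Set ℂ := {z | ∃ m n : ℤ, z = m + n * (⟨1 / 2, √3 / 2⟩ : ℂ)}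

/-- `e^{iθ}` for `θ` in `ℝ / 2πℤ`; the rotation by `θ` is the multiplication by it. -/
noncomputable def rot (θ : AddCircle (2 * Real.pi)) : ℂ := (AddCircle.toCircle θ : ℂ)

/-- The union of the sets `r_{θ_i}(Λ) + x_i`. -/
def TBG (k : ℕ) (x : Fin k → ℂ) (θ : Fin k → AddCircle (2 * Real.pi)) : Set ℂ :=
  ⋃ i, {p | ∃ z ∈ Lam, p = rot (θ i) * z + x i}

/-- Dense forests: there is a function `V` such that for `0 < ε < 1` every line segment of length
`V ε > 0` contains a point at distance at most `ε` from `Y`. -/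
def IsDenseForest (Y : Set ℂ) : Prop :=
  ∃ V : ℝ → ℝ, ∀ ε : ℝ, 0 < ε → ε < 1 → 0 < V ε ∧ ∀ a b : ℂ, dist a b = V ε →
    ∃ y ∈ segment ℝ a b, Metric.infDist y Y ≤ ε ∧ Y.Nonempty

theorem forest_of {k : ℕ} (x : Fin k → ℂ) (θ : Fin k → AddCircle (2 * Real.pi))
    (i j : Fin k) (h : θ i - θ j ∉ Pool.Agent.N758.TBG.Bad) : IsDenseForest (TBG k x θ) := by
  have hF := Pool.Agent.N758.TBG.forest_of_noCommon (fun i => rot (θ i)) x
    (fun i => Pool.Agent.N758.TBG.norm_rot (θ i)) i j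
    (Pool.Agent.N758.TBG.noCommon_of_not_bad h)
  have hF' : ∀ ε : ℝ, 0 < ε → ∃ V : ℝ, 0 < V ∧ ∀ a b : ℂ, dist a b = V →
    ∃ y ∈ segment ℝ a b, ∃ p ∈ TBG k x θ, dist y p < ε := hF
  choose! V hV using hF'
  refine ⟨V, fun ε h0 _ => ⟨(hV ε h0).1, fun a b hab => ?_⟩⟩
  obtain ⟨y, hy, p, hp, hd⟩ := (hV ε h0).2 a b hab
  exact ⟨y, hy, (Metric.infDist_le_dist_of_mem hp).trans hd.le, ⟨p, hp⟩⟩

theorem not_forest_one (x : Fin 1 → ℂ) (θ : Fin 1 → AddCircle (2 * Real.pi)) :
    ¬ IsDenseForest (TBG 1 x θ) := by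
  rintro ⟨V, hV⟩
  have h1 := Pool.Agent.N758.TBG.not_forest (fun i => rot (θ i)) x
    (fun i => Pool.Agent.N758.TBG.norm_rot (θ i)) (by
      intro i j h
      have hij : i = j := Subsingleton.elim _ _
      subst hij
      apply h 1 Pool.Agent.N758.TBG.hex_one 1 Pool.Agent.N758.TBG.hex_one one_ne_zero one_ne_zero
      rw [mul_comm, Complex.mul_conj]
      simp)
  apply h1
  intro ε hε
  have hm : 0 < min (ε / 2) (1 / 2) := lt_min (by linarith) (by norm_num)
  have hm1 : min (ε / 2) (1 / 2) < 1 := lt_of_le_of_lt (min_le_right _ _) (by norm_num)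
  refine ⟨V (min (ε / 2) (1 / 2)), (hV _ hm hm1).1, fun a b hab => ?_⟩
  obtain ⟨y, hy, hd, hne⟩ := (hV _ hm hm1).2 a b hab
  have hlt : Metric.infDist y (TBG 1 x θ) < ε :=
    lt_of_le_of_lt (hd.trans (min_le_left _ _)) (by linarith)
  obtain ⟨p, hp, hpd⟩ := (Metric.infDist_lt_iff hne).1 hlt
  exact ⟨y, hy, p, hp, hpd⟩

/-- **Theorem.** For every `k ≥ 2` and for Lebesgue-almost all angles and translations the union of
`k` rotated and translated copies of `Λ` is a dense forest (so the answer to the question is yes,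
with `k = 2`), and for `k = 1` it never is. More precisely there is a countable set `C` such that the
union is a dense forest whenever some difference of two of the angles is not in `C`, for all
translations. -/
theorem result :
    (∃ k : ℕ, 1 ≤ k ∧ ∀ᵐ p : (Fin k → AddCircle (2 * Real.pi)) × (Fin k → ℂ),
      IsDenseForest (TBG k p.2 p.1)) ∧
    (∀ k : ℕ, 2 ≤ k → ∀ᵐ p : (Fin k → AddCircle (2 * Real.pi)) × (Fin k → ℂ),
      IsDenseForest (TBG k p.2 p.1)) ∧
    (∀ (x : Fin 1 → ℂ) (θ : Fin 1 → AddCircle (2 * Real.pi)), ¬ IsDenseForest (TBG 1 x θ)) ∧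
    ∃ C : Set (AddCircle (2 * Real.pi)), C.Countable ∧
      ∀ (k : ℕ) (x : Fin k → ℂ) (θ : Fin k → AddCircle (2 * Real.pi)) (i j : Fin k),
        θ i - θ j ∉ C → IsDenseForest (TBG k x θ) := by
  have h2 : ∀ k : ℕ, 2 ≤ k → ∀ᵐ p : (Fin k → AddCircle (2 * Real.pi)) × (Fin k → ℂ),
      IsDenseForest (TBG k p.2 p.1) := by
    intro k hk
    let i : Fin k := ⟨0, by omega⟩
    let j : Fin k := ⟨1, by omega⟩
    have hij : i ≠ j := by
      intro h
      have := congrArg Fin.val h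
      simp [i, j] at this
    have h := Pool.Agent.N758.TBG.ae_not_bad i j hij
    have h3 : ∀ᵐ p : (Fin k → AddCircle (2 * Real.pi)) × (Fin k → ℂ),
        p.1 i - p.1 j ∉ Pool.Agent.N758.TBG.Bad :=
      Measure.quasiMeasurePreserving_fst.ae h
    filter_upwards [h3] with p hp
    exact forest_of p.2 p.1 i j hp
  exact ⟨⟨2, by norm_num, h2 2 le_rfl⟩, h2, not_forest_one,
    Pool.Agent.N758.TBG.Bad, Pool.Agent.N758.TBG.bad_countable,
    fun k x θ i j h => forest_of x θ i j h⟩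

end Pool.Agent.Results.MP_e7d22a_nt.AlmostEveryPair
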